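import Pool.Agent.V8H88.FS.Fcn

/-!
# The criteria with finitely many primes
-/

set_option autoImplicit false

namespace Pool.Agent.V8H88.FS

open NumberField IsDedekindDomain Pool.Agent.W401.Cheb Pool.Agent.V8H88.GO Module Polynomial

/-- All matrix entries of the representation `V` over `ℚ̄_p` are in the subfield `F`, after conjugation
by an invertible matrix. -/
def DefinedOver {p : ℕ} [Fact p.Prime] {Γ n : Type} [Group Γ] [Fintype n] [DecidableEq n]
    (F : IntermediateField ℚ_[p] (PadicAlgCl p)) (V : Γ →* Matrix n n (PadicAlgCl p)) : Prop :=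
  ∃ P Q : Matrix n n (PadicAlgCl p), P * Q = 1 ∧ ∀ g i j, (Q * V g * P) i j ∈ F

/-- The representation `V` is unramified at the primes outside `S`. -/
def UnramifiedOutside {K : Type} [Field K] [NumberField K] {M : Type} [Monoid M]
    (S : Set (HeightOneSpectrum (𝓞 K))) (V : GK K →* M) : Prop :=
  ∀ v ∉ S, ∀ τ, IsInert v τ → V τ = 1

noncomputable section

section models

variable {p : ℕ} [Fact p.Prime] {Γ n m : Type} [Group Γ] [Fintype n] [DecidableEq n] [Fintype m]
  [DecidableEq m]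

/-- the direct sum of two representations -/
def sumRep {R : Type} [CommRing R] (A : Γ →* Matrix m m R) (B : Γ →* Matrix n n R) :
    Γ →* Matrix (m ⊕ n) (m ⊕ n) R where
  toFun g := Matrix.fromBlocks (A g) 0 0 (B g)
  map_one' := by rw [map_one, map_one, Matrix.fromBlocks_one]
  map_mul' g h := by
    rw [Matrix.fromBlocks_multiply, map_mul, map_mul]
    simp

theorem exists_model [TopologicalSpace Γ] {F : IntermediateField ℚ_[p] (PadicAlgCl p)}
    {V : Γ →* Matrix n n (PadicAlgCl p)} (hc : Continuous V) (h : DefinedOver F V) :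
    ∃ (V0 : Γ →* Matrix n n F) (P Q : Matrix n n (PadicAlgCl p)), Continuous V0 ∧ P * Q = 1 ∧
      (∀ g, V g = P * ext V0 g * Q) ∧ ∀ g, V g = 1 → V0 g = 1 := by
  obtain ⟨P, Q, hPQ, hF⟩ := h
  have hQP : Q * P = 1 := mul_eq_one_comm.1 hPQ
  let V0 : Γ →* Matrix n n F :=
    { toFun := fun g => Matrix.of fun i j => (⟨(Q * V g * P) i j, hF g i j⟩ : F)
      map_one' := by
        ext i j
        change (Q * V 1 * P) i j = ((1 : Matrix n n F) i j : PadicAlgCl p)
        rw [map_one, Matrix.mul_one, hQP, Matrix.one_apply, Matrix.one_apply]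
        split_ifs <;> simp
      map_mul' := by
        intro g h
        ext i j
        rw [Matrix.mul_apply]
        change (Q * V (g * h) * P) i j = _
        rw [show Q * V (g * h) * P = (Q * V g * P) * (Q * V h * P) by
          rw [map_mul]
          calc Q * (V g * V h) * P = Q * V g * (P * Q) * V h * P := by
                rw [hPQ, Matrix.mul_one]; simp only [Matrix.mul_assoc]
            _ = _ := by simp only [Matrix.mul_assoc], Matrix.mul_apply]
        push_cast
        rfl }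
  have hV0 : ∀ g, ext V0 g = Q * V g * P := fun g => rfl
  refine ⟨V0, P, Q, ?_, hPQ, ?_, ?_⟩
  · refine continuous_matrix fun i j => ?_
    refine Continuous.subtype_mk ?_ _
    exact ((continuous_const.matrix_mul hc).matrix_mul continuous_const).matrix_elem i j
  · intro g
    rw [hV0]
    calc V g = (P * Q) * V g * (P * Q) := by rw [hPQ, Matrix.one_mul, Matrix.mul_one]
      _ = _ := by simp only [Matrix.mul_assoc]
  · intro g hg
    ext i j
    change (Q * V g * P) i j = ((1 : Matrix n n F) i j : PadicAlgCl p)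
    rw [hg, Matrix.mul_one, hQP, Matrix.one_apply, Matrix.one_apply]
    split_ifs <;> simp

/-- the matrix of functions -/
def fm {k : Type} (V : Γ → Matrix n n k) : Matrix n n (Γ → k) := Matrix.of fun i j g => V g i j

theorem ents_mem {k : Type} [Field k] (Z : Γ →* Matrix m m k) (i j : m) :
    (fun g => Z g i j) ∈ ents Z := Submodule.subset_span ⟨(i, j), rfl⟩

omit [Group Γ] [DecidableEq n] in
theorem fm_mem {k : Type} [Field k] {E : Submodule k (Γ → k)} {V V0 : Γ → Matrix n n k}
    (h0 : ∀ i j, (fun g => V0 g i j) ∈ E) (P Q : Matrix n n k) (h : ∀ g, V g = P * V0 g * Q)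
    (i j : n) : fm V i j ∈ E := by
  have h1 : fm V i j = ∑ b, ∑ a, (P i a * Q b j) • fun g => V0 g a b := by
    ext g
    rw [Finset.sum_apply]
    change V g i j = _
    rw [h, Matrix.mul_apply]
    refine Finset.sum_congr rfl fun b _ => ?_
    rw [Matrix.mul_apply, Finset.sum_mul, Finset.sum_apply]
    refine Finset.sum_congr rfl fun a _ => ?_
    rw [Pi.smul_apply, smul_eq_mul]
    ring
  rw [h1]
  exact Submodule.sum_mem _ fun b _ => Submodule.sum_mem _ fun a _ => E.smul_mem _ (h0 a b)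

end models

section tests

variable (K : Type) [Field K] [NumberField K] (S : Set (HeightOneSpectrum (𝓞 K))) (hS : S.Finite)
  (p : ℕ) [Fact p.Prime] (D r m : ℕ)

include hS

/-- polynomials in the matrix coefficients of two representations -/
theorem test_pair (N : ℕ) : ∃ T : Set (HeightOneSpectrum (𝓞 K)), T.Finite ∧ (∀ v ∈ T, v ∉ S) ∧
    ∀ (F : IntermediateField ℚ_[p] (PadicAlgCl p)) [FiniteDimensional ℚ_[p] F],
      finrank ℚ_[p] F ≤ m → ∀ d, d ≤ D →
      ∀ (V : GK K →* Matrix (Fin d) (Fin d) (PadicAlgCl p))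
        (W : GK K →* Matrix (Fin r) (Fin r) (PadicAlgCl p)), Continuous V → Continuous W →
      DefinedOver F V → DefinedOver F W → UnramifiedOutside S V → UnramifiedOutside S W →
      ∃ E : Submodule (PadicAlgCl p) (GK K → PadicAlgCl p), (1 : GK K → PadicAlgCl p) ∈ E ∧
        (∀ i j, fm V i j ∈ E) ∧ (∀ i j, fm W i j ∈ E) ∧
        ∀ f ∈ E ^ N, (∀ v ∈ T, ∀ σ, IsFrob v σ → f σ = 0) → ∀ g, f g = 0 := by
  obtain ⟨T, hT, hTS, hT'⟩ := test K S hS p (1 + (D + r)) N m
  refine ⟨T, hT, hTS, ?_⟩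
  intro F _ hF d hd V W hV hW hVF hWF hVS hWS
  obtain ⟨V0, P, Q, hV0, hPQ, hV1, hV2⟩ := exists_model hV hVF
  obtain ⟨W0, P', Q', hW0, hPQ', hW1, hW2⟩ := exists_model hW hWF
  set Z : GK K →* Matrix (Unit ⊕ (Fin d ⊕ Fin r)) (Unit ⊕ (Fin d ⊕ Fin r)) F :=
    sumRep 1 (sumRep V0 W0) with hZ
  have hZc : Continuous Z := by
    change Continuous fun g => Matrix.fromBlocks (1 : Matrix Unit Unit F) 0 0
      (Matrix.fromBlocks (V0 g) 0 0 (W0 g))
    exact continuous_const.matrix_fromBlocks continuous_const continuous_const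
      (hV0.matrix_fromBlocks continuous_const continuous_const hW0)
  have hZS : ∀ v ∉ S, ∀ τ, IsInert v τ → Z τ = 1 := by
    intro v hv τ hτ
    change Matrix.fromBlocks (1 : Matrix Unit Unit F) 0 0 (Matrix.fromBlocks (V0 τ) 0 0 (W0 τ)) = 1
    rw [hV2 τ (hVS v hv τ hτ), hW2 τ (hWS v hv τ hτ), Matrix.fromBlocks_one, Matrix.fromBlocks_one]
  refine ⟨ents (ext Z), ?_, ?_, ?_, ?_⟩
  · have h := ents_mem (ext Z) (Sum.inl ()) (Sum.inl ())
    exact h
  · refine fm_mem (V0 := ext V0) (fun i j => ?_) P Q hV1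
    exact ents_mem (ext Z) (Sum.inr (Sum.inl i)) (Sum.inr (Sum.inl j))
  · refine fm_mem (V0 := ext W0) (fun i j => ?_) P' Q' hW1
    exact ents_mem (ext Z) (Sum.inr (Sum.inr i)) (Sum.inr (Sum.inr j))
  · refine hT' F hF _ ?_ Z hZc hZS
    rw [Fintype.card_sum, Fintype.card_sum, Fintype.card_unit, Fintype.card_fin, Fintype.card_fin]
    omega

/-- **One common eigenvalue.** -/
theorem test_one : ∃ T : Set (HeightOneSpectrum (𝓞 K)), T.Finite ∧ (∀ v ∈ T, v ∉ S) ∧
    ∀ (F : IntermediateField ℚ_[p] (PadicAlgCl p)) [FiniteDimensional ℚ_[p] F],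
      finrank ℚ_[p] F ≤ m → ∀ d, d ≤ D →
      ∀ (V : GK K →* Matrix (Fin d) (Fin d) (PadicAlgCl p))
        (W : GK K →* Matrix (Fin r) (Fin r) (PadicAlgCl p)), Continuous V → Continuous W →
      DefinedOver F V → DefinedOver F W → UnramifiedOutside S V → UnramifiedOutside S W →
      (∀ v ∈ T, ∀ σ, IsFrob v σ → ∃ c, (V σ).charpoly.IsRoot c ∧ (W σ).charpoly.IsRoot c) →
      ∀ g, ∃ c, (V g).charpoly.IsRoot c ∧ (W g).charpoly.IsRoot c := by
  obtain ⟨T, hT, hTS, hT'⟩ := test_pair K S hS p D r m (D * r)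
  refine ⟨T, hT, hTS, ?_⟩
  intro F _ hF d hd V W hV hW hVF hWF hVS hWS hroot g
  obtain ⟨E, h1, hVE, hWE, hE⟩ := hT' F hF d hd V W hV hW hVF hWF hVS hWS
  set f : GK K → PadicAlgCl p := (Matrix.kroneckerMap (· * ·) (fm V)
    (1 : Matrix (Fin r) (Fin r) (GK K → PadicAlgCl p)) - Matrix.kroneckerMap (· * ·)
      (1 : Matrix (Fin d) (Fin d) (GK K → PadicAlgCl p)) (fm W)).det with hf
  have hfe : ∀ g, f g = (Matrix.kroneckerMap (· * ·) (V g)
      (1 : Matrix (Fin r) (Fin r) (PadicAlgCl p)) - Matrix.kroneckerMap (· * ·)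
      (1 : Matrix (Fin d) (Fin d) (PadicAlgCl p)) (W g)).det := by
    intro g
    have h2 := RingHom.map_det (Pi.evalRingHom (fun _ : GK K => PadicAlgCl p) g)
      (Matrix.kroneckerMap (· * ·) (fm V)
        (1 : Matrix (Fin r) (Fin r) (GK K → PadicAlgCl p)) - Matrix.kroneckerMap (· * ·)
        (1 : Matrix (Fin d) (Fin d) (GK K → PadicAlgCl p)) (fm W))
    refine h2.trans ?_
    congr 1
    ext ⟨i, i'⟩ ⟨j, j'⟩
    rw [RingHom.mapMatrix_apply, Matrix.map_apply, Matrix.sub_apply, Matrix.sub_apply, map_sub]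
    simp only [Matrix.kroneckerMap_apply, Matrix.one_apply]
    congr 1
    · rw [map_mul]
      congr 1
      split_ifs <;> simp
    · rw [map_mul]
      congr 1
      split_ifs <;> simp
  have hfE : f ∈ E ^ (D * r) := by
    have h2 : f ∈ E ^ Fintype.card (Fin d × Fin r) := by
      refine det_mem' E _ ?_
      rintro ⟨i, i'⟩ ⟨j, j'⟩
      rw [Matrix.sub_apply]
      simp only [Matrix.kroneckerMap_apply, Matrix.one_apply]
      refine E.sub_mem ?_ ?_
      · split_ifs
        · rw [mul_one]; exact hVE _ _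
        · rw [mul_zero]; exact E.zero_mem
      · split_ifs
        · rw [one_mul]; exact hWE _ _
        · rw [zero_mul]; exact E.zero_mem
    refine pow_mono' E h1 ?_ h2
    rw [Fintype.card_prod, Fintype.card_fin, Fintype.card_fin]
    exact Nat.mul_le_mul_right _ hd
  have key := hE f hfE (by
    intro v hv σ hσ
    obtain ⟨c, hc1, hc2⟩ := hroot v hv σ hσ
    rw [hfe]
    exact det_kron_eq_zero _ _ c hc1 hc2) g
  rw [hfe] at key
  exact common_of_det _ _ key

/-- **All eigenvalues are common.** -/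
theorem test_all : ∃ T : Set (HeightOneSpectrum (𝓞 K)), T.Finite ∧ (∀ v ∈ T, v ∉ S) ∧
    ∀ (F : IntermediateField ℚ_[p] (PadicAlgCl p)) [FiniteDimensional ℚ_[p] F],
      finrank ℚ_[p] F ≤ m → ∀ d, d ≤ D →
      ∀ (V : GK K →* Matrix (Fin d) (Fin d) (PadicAlgCl p))
        (W : GK K →* Matrix (Fin r) (Fin r) (PadicAlgCl p)), Continuous V → Continuous W →
      DefinedOver F V → DefinedOver F W → UnramifiedOutside S V → UnramifiedOutside S W →
      (∀ v ∈ T, ∀ σ, IsFrob v σ → ∃ N : ℕ, (W σ).charpoly ∣ (V σ).charpoly ^ N) →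
      ∀ g, (aeval (W g) (V g).charpoly) ^ r = 0 := by
  obtain ⟨T, hT, hTS, hT'⟩ := test_pair K S hS p D r m ((D + D) * r)
  refine ⟨T, hT, hTS, ?_⟩
  intro F _ hF d hd V W hV hW hVF hWF hVS hWS hroot g
  obtain ⟨E, h1, hVE, hWE, hE⟩ := hT' F hF d hd V W hV hW hVF hWF hVS hWS
  ext i j
  set f : GK K → PadicAlgCl p := ((aeval (fm W) (fm V).charpoly) ^ r) i j with hf
  have hfe : ∀ g, f g = ((aeval (W g) (V g).charpoly) ^ r) i j := by
    intro g
    have h2 : ((aeval (fm W) (fm V).charpoly) ^ r).map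
        (Pi.evalRingHom (fun _ : GK K => PadicAlgCl p) g) = (aeval (W g) (V g).charpoly) ^ r := by
      have h3 : ((aeval (fm W) (fm V).charpoly) ^ r).map
          (Pi.evalRingHom (fun _ : GK K => PadicAlgCl p) g) =
          ((aeval (fm W) (fm V).charpoly).map
            (Pi.evalRingHom (fun _ : GK K => PadicAlgCl p) g)) ^ r :=
        map_pow ((Pi.evalRingHom (fun _ : GK K => PadicAlgCl p) g).mapMatrix) _ _
      rw [h3, map_aeval_matrix, ← Matrix.charpoly_map]
      rfl
    exact congrFun (congrFun h2 i) j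
  have hfE : f ∈ E ^ ((D + D) * r) := by
    have h2 := pow_mem'' E _ (aeval_mem' E h1 (fm V) (fm W) hVE hWE) r i j
    refine pow_mono' E h1 ?_ h2
    rw [Fintype.card_fin]
    exact Nat.mul_le_mul_right _ (by omega)
  have key := hE f hfE (by
    intro v hv σ hσ
    obtain ⟨N, T', hT'⟩ := hroot v hv σ hσ
    rw [hfe]
    have hnil : IsNilpotent (aeval (W σ) (V σ).charpoly) := by
      refine ⟨N, ?_⟩
      rw [← map_pow, hT', map_mul, Matrix.aeval_self_charpoly, zero_mul]
    have h2 := Matrix.isNilpotent_charpoly_sub_pow_of_isNilpotent hnil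
    have h3 := sub_eq_zero.mp h2.eq_zero
    have h4 := Matrix.aeval_self_charpoly (aeval (W σ) (V σ).charpoly)
    rw [h3, map_pow, aeval_X, Fintype.card_fin] at h4
    rw [h4]
    rfl) g
  rw [← hfe]
  exact key

end tests

end

end Pool.Agent.V8H88.FS
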