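import Pool.Agent.V8H88.FS.Pow
import Pool.Agent.V8H88.GO.Any

/-!
# Determinants and characteristic polynomials in the powers of the space of matrix coefficients
-/

set_option autoImplicit false

namespace Pool.Agent.V8H88.FS

open NumberField IsDedekindDomain Pool.Agent.W401.Cheb Pool.Agent.V8H88.GO Module Polynomial

noncomputable section

section powers

variable {R A : Type} [CommRing R] [CommRing A] [Algebra R A] (E : Submodule R A)

theorem pow_mono' (h1 : (1 : A) ∈ E) {a b : ℕ} (h : a ≤ b) : E ^ a ≤ E ^ b := by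
  obtain ⟨c, rfl⟩ := Nat.exists_eq_add_of_le h
  rw [pow_add]
  intro x hx
  have h2 : (1 : A) ∈ E ^ c := by
    have := Submodule.pow_mem_pow E h1 c
    rwa [one_pow] at this
  have := Submodule.mul_mem_mul hx h2
  rwa [mul_one] at this

theorem prod_mem' {I : Type} (s : Finset I) (M : I → A) (h : ∀ i ∈ s, M i ∈ E) :
    ∏ i ∈ s, M i ∈ E ^ s.card := by
  classical
  induction s using Finset.induction_on with
  | empty => rw [Finset.prod_empty, Finset.card_empty, pow_zero]; exact Submodule.one_le.1 le_rfl
  | insert a s ha ih =>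
    rw [Finset.prod_insert ha, Finset.card_insert_of_notMem ha, pow_succ']
    exact Submodule.mul_mem_mul (h a (Finset.mem_insert_self _ _))
      (ih fun i hi => h i (Finset.mem_insert_of_mem hi))

theorem coeff_prod_mem {I : Type} (s : Finset I) (P : I → A[X]) (h : ∀ i ∈ s, ∀ k, (P i).coeff k ∈ E) :
    ∀ k, (∏ i ∈ s, P i).coeff k ∈ E ^ s.card := by
  classical
  induction s using Finset.induction_on with
  | empty =>
    intro k
    rw [Finset.prod_empty, Finset.card_empty, pow_zero, coeff_one]
    split_ifs
    · exact Submodule.one_le.1 le_rfl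
    · exact Submodule.zero_mem _
  | insert a s ha ih =>
    intro k
    rw [Finset.prod_insert ha, Finset.card_insert_of_notMem ha, pow_succ', coeff_mul]
    exact Submodule.sum_mem _ fun x _ => Submodule.mul_mem_mul (h a (Finset.mem_insert_self _ _) _)
      (ih (fun i hi => h i (Finset.mem_insert_of_mem hi)) _)

variable {m n l : Type} [Fintype m] [DecidableEq m] [Fintype n] [DecidableEq n]

theorem det_mem' (M : Matrix m m A) (h : ∀ i j, M i j ∈ E) : M.det ∈ E ^ Fintype.card m := by
  rw [Matrix.det_apply]
  refine Submodule.sum_mem _ fun σ _ => ?_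
  rw [Units.smul_def]
  refine zsmul_mem ?_ _
  exact prod_mem' E Finset.univ _ fun i _ => h _ _

theorem charpoly_mem (h1 : (1 : A) ∈ E) (M : Matrix m m A) (h : ∀ i j, M i j ∈ E) (k : ℕ) :
    M.charpoly.coeff k ∈ E ^ Fintype.card m := by
  rw [Matrix.charpoly, Matrix.det_apply, finsetSum_coeff]
  refine Submodule.sum_mem _ fun σ _ => ?_
  rw [Units.smul_def, coeff_smul]
  refine zsmul_mem ?_ _
  refine coeff_prod_mem E Finset.univ _ (fun i _ k => ?_) k
  rw [Matrix.charmatrix_apply, coeff_sub, coeff_C]
  refine E.sub_mem ?_ ?_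
  · rw [Matrix.diagonal_apply]
    split_ifs
    · rw [coeff_X]
      split_ifs
      · exact h1
      · exact E.zero_mem
    · rw [coeff_zero]; exact E.zero_mem
  · split_ifs
    · exact h _ _
    · exact E.zero_mem

omit [DecidableEq m] [Fintype n] [DecidableEq n] in
theorem mul_mem'' {a b : ℕ} (M : Matrix l m A) (N : Matrix m n A) (hM : ∀ i j, M i j ∈ E ^ a)
    (hN : ∀ i j, N i j ∈ E ^ b) (i : l) (j : n) : (M * N) i j ∈ E ^ (a + b) := by
  rw [Matrix.mul_apply, pow_add]
  exact Submodule.sum_mem _ fun c _ => Submodule.mul_mem_mul (hM _ _) (hN _ _)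

theorem pow_mem'' {a : ℕ} (M : Matrix m m A) (hM : ∀ i j, M i j ∈ E ^ a) (r : ℕ) :
    ∀ i j, (M ^ r) i j ∈ E ^ (a * r) := by
  induction r with
  | zero =>
    intro i j
    rw [pow_zero, mul_zero, pow_zero, Matrix.one_apply]
    split_ifs
    · exact Submodule.one_le.1 le_rfl
    · exact Submodule.zero_mem _
  | succ r ih =>
    intro i j
    rw [pow_succ, mul_add, mul_one]
    exact mul_mem'' E _ _ ih hM i j

theorem aeval_mem' [Nontrivial A] (h1 : (1 : A) ∈ E) (V : Matrix m m A) (W : Matrix n n A)
    (hV : ∀ i j, V i j ∈ E) (hW : ∀ i j, W i j ∈ E) (i j : n) :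
    (aeval W V.charpoly) i j ∈ E ^ (Fintype.card m + Fintype.card m) := by
  rw [aeval_eq_sum_range, Matrix.sum_apply]
  refine Submodule.sum_mem _ fun k hk => ?_
  rw [Matrix.smul_apply, smul_eq_mul]
  have hk' : k ≤ Fintype.card m := by
    rw [Matrix.charpoly_natDegree_eq_dim, Finset.mem_range] at hk
    omega
  rw [pow_add]
  refine Submodule.mul_mem_mul (charpoly_mem E h1 V hV k) (pow_mono' E h1 hk' ?_)
  have := pow_mem'' E (a := 1) W (fun i j => by rw [pow_one]; exact hW i j) k i j
  rwa [one_mul] at this

end powers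

section common

variable {k : Type} [Field k] [IsAlgClosed k] {m n : Type} [Fintype m] [DecidableEq m] [Fintype n]
  [DecidableEq n]

/-- a singular Sylvester operator gives a common eigenvalue -/
theorem common_of_det (A : Matrix n n k) (B : Matrix m m k)
    (h : (Matrix.kroneckerMap (· * ·) A (1 : Matrix m m k) -
      Matrix.kroneckerMap (· * ·) (1 : Matrix n n k) B).det = 0) :
    ∃ c, A.charpoly.IsRoot c ∧ B.charpoly.IsRoot c := by
  obtain ⟨z, hz, hz0⟩ := Matrix.exists_mulVec_eq_zero_iff.2 h
  set Z : Matrix n m k := Matrix.of fun i j => z (i, j) with hZ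
  have hZ0 : Z ≠ 0 := by
    intro h0
    apply hz
    ext ⟨i, j⟩
    exact congrFun (congrFun h0 i) j
  have h1 : A * Z = Z * B.transpose := by
    ext i j
    have h2 := congrFun hz0 (i, j)
    rw [Matrix.sub_mulVec, Pi.sub_apply, Pi.zero_apply, sub_eq_zero] at h2
    rw [Matrix.mul_apply, Matrix.mul_apply]
    simp only [Matrix.mulVec, dotProduct, Fintype.sum_prod_type, Matrix.kroneckerMap_apply,
      Matrix.one_apply] at h2
    simp only [mul_ite, mul_one, mul_zero, ite_mul, one_mul, zero_mul, Finset.sum_ite_eq,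
      Finset.mem_univ, if_true] at h2
    rw [show (∑ x, A i x * Z x j) = ∑ x, A i x * z (x, j) from rfl, h2]
    rw [Finset.sum_comm]
    simp only [Finset.sum_ite_eq, Finset.mem_univ, if_true]
    exact Finset.sum_congr rfl fun x _ => mul_comm _ _
  have h2 : ∀ q : k[X], aeval A q * Z = Z * aeval B.transpose q := by
    intro q
    induction q using Polynomial.induction_on' with
    | add p q hp hq => rw [map_add, map_add, Matrix.add_mul, Matrix.mul_add, hp, hq]
    | monomial r c =>
      rw [aeval_monomial, aeval_monomial]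
      have h3 : ∀ r : ℕ, A ^ r * Z = Z * B.transpose ^ r := by
        intro r
        induction r with
        | zero => simp
        | succ r ih => rw [pow_succ, Matrix.mul_assoc, h1, ← Matrix.mul_assoc, ih, pow_succ,
            Matrix.mul_assoc]
      rw [Matrix.mul_assoc, h3, ← Matrix.mul_assoc, ← Matrix.mul_assoc]
      congr 1
      rw [Matrix.algebraMap_eq_diagonal, Matrix.algebraMap_eq_diagonal]
      ext i j
      simp [mul_comm]
  by_contra hcon
  push Not at hcon
  have hcop : IsCoprime A.charpoly B.charpoly := by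
    by_contra hnc
    obtain ⟨c, hc1, hc2⟩ := exists_common_root (RingHom.id k) hnc
    rw [Polynomial.map_id] at hc1 hc2
    exact hcon c hc1 hc2
  obtain ⟨a, b, hab⟩ := hcop
  have h3 := congrArg (aeval A) hab
  rw [map_add, map_mul, map_mul, Matrix.aeval_self_charpoly, mul_zero, zero_add, map_one] at h3
  have h4 := h2 B.charpoly
  rw [← Matrix.charpoly_transpose, Matrix.aeval_self_charpoly, Matrix.mul_zero, Matrix.charpoly_transpose]
    at h4
  apply hZ0
  calc Z = (aeval A b * aeval A B.charpoly) * Z := by rw [h3, Matrix.one_mul]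
    _ = 0 := by rw [Matrix.mul_assoc, h4, Matrix.mul_zero]

end common

end

end Pool.Agent.V8H88.FS
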