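import Pool.Agent.V8H88.FS.Crt

/-!
# Geometric origin is tested by finitely many primes
-/

set_option autoImplicit false

namespace Pool.Agent.V8H88.FS

open NumberField IsDedekindDomain Pool.Agent.W401.Cheb Pool.Agent.V8H88.GO Module Polynomial

/-- **One common root at the primes of a finite set.** -/
theorem finite_one (K : Type) [Field K] [NumberField K] (S : Set (HeightOneSpectrum (𝓞 K)))
    (hS : S.Finite) (p : ℕ) [Fact p.Prime]
    (hSp : ∀ v : HeightOneSpectrum (𝓞 K), (p : 𝓞 K) ∈ v.asIdeal → v ∈ S) (D m : ℕ) :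
    ∃ T : Set (HeightOneSpectrum (𝓞 K)), T.Finite ∧ (∀ v ∈ T, v ∉ S) ∧
      ∀ (E : Type) [Field E] [NumberField E] (H : Cohomology K) (f : NewformSystem K E)
        (ι : E →+* PadicAlgCl p) (x : H.Obj) (F : IntermediateField ℚ_[p] (PadicAlgCl p))
        [FiniteDimensional ℚ_[p] F], finrank ℚ_[p] F ≤ m → p ∈ f.primes → H.dim x ≤ D →
      f.bad ⊆ S → H.bad x ⊆ S → UnramifiedOutside S (f.rep p ι) →
      UnramifiedOutside S (H.rep p x) → DefinedOver F (f.rep p ι) → DefinedOver F (H.rep p x) →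
      (∀ v ∈ T, ¬ IsCoprime (f.hecke v) ((H.frob x v).map (algebraMap ℚ E))) →
      ∀ v ∉ S, ¬ IsCoprime (f.hecke v) ((H.frob x v).map (algebraMap ℚ E)) := by
  obtain ⟨T, hT, hTS, hT'⟩ := test_one K S hS p D 2 m
  refine ⟨T, hT, hTS, ?_⟩
  intro E _ _ H f ι x F _ hF hp hD hfS hxS hfu hxu hfF hxF hroot v hv
  have hbad : ∀ v ∉ S, v ∉ f.bad ∧ v ∉ H.bad x ∧ (p : 𝓞 K) ∉ v.asIdeal := fun v hv =>
    ⟨fun h => hv (hfS h), fun h => hv (hxS h), fun h => hv (hSp v h)⟩
  have key := hT' F hF (H.dim x) hD (H.rep p x) (f.rep p ι) (H.continuous_rep p x)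
    (f.continuous_rep p ι hp) hxF hfF hxu hfu (by
      intro v hv σ hσ
      obtain ⟨h1, h2, h3⟩ := hbad v (hTS v hv)
      obtain ⟨c, hc1, hc2⟩ := exists_common_root ι (hroot v hv)
      refine ⟨c, ?_, ?_⟩
      · rw [H.charpoly_frob p x v h2 h3 σ hσ]
        rwa [Polynomial.map_map, rat_comp] at hc2
      · rw [f.charpoly_frob p ι hp v h1 h3 σ hσ]
        exact hc1)
  obtain ⟨h1, h2, h3⟩ := hbad v hv
  obtain ⟨σ, hσ⟩ := (Pool.Agent.W401.Frob.main K).1 v
  obtain ⟨c, hc1, hc2⟩ := key σ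
  rw [f.charpoly_frob p ι hp v h1 h3 σ hσ] at hc2
  rw [H.charpoly_frob p x v h2 h3 σ hσ, ← rat_comp ι, ← Polynomial.map_map] at hc1
  exact not_coprime ι hc2 hc1

/-- **All roots are common at the primes of a finite set.** -/
theorem finite_all (K : Type) [Field K] [NumberField K] (S : Set (HeightOneSpectrum (𝓞 K)))
    (hS : S.Finite) (p : ℕ) [Fact p.Prime]
    (hSp : ∀ v : HeightOneSpectrum (𝓞 K), (p : 𝓞 K) ∈ v.asIdeal → v ∈ S) (D m n : ℕ) :
    ∃ T : Set (HeightOneSpectrum (𝓞 K)), T.Finite ∧ (∀ v ∈ T, v ∉ S) ∧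
      ∀ (E : Type) [Field E] [NumberField E] (H : Cohomology K) (f : CompatibleSystem K E n)
        (ι : E →+* PadicAlgCl p) (x : H.Obj) (F : IntermediateField ℚ_[p] (PadicAlgCl p))
        [FiniteDimensional ℚ_[p] F], finrank ℚ_[p] F ≤ m → p ∈ f.primes → H.dim x ≤ D →
      f.bad ⊆ S → H.bad x ⊆ S → UnramifiedOutside S (f.rep p ι) →
      UnramifiedOutside S (H.rep p x) → DefinedOver F (f.rep p ι) → DefinedOver F (H.rep p x) →
      (∀ v ∈ T, ∃ N : ℕ, f.poly v ∣ ((H.frob x v).map (algebraMap ℚ E)) ^ N) →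
      ∀ v ∉ S, ∃ N : ℕ, f.poly v ∣ ((H.frob x v).map (algebraMap ℚ E)) ^ N := by
  obtain ⟨T, hT, hTS, hT'⟩ := test_all K S hS p D n m
  refine ⟨T, hT, hTS, ?_⟩
  intro E _ _ H f ι x F _ hF hp hD hfS hxS hfu hxu hfF hxF hroot v hv
  have hbad : ∀ v ∉ S, v ∉ f.bad ∧ v ∉ H.bad x ∧ (p : 𝓞 K) ∉ v.asIdeal := fun v hv =>
    ⟨fun h => hv (hfS h), fun h => hv (hxS h), fun h => hv (hSp v h)⟩
  have key := hT' F hF (H.dim x) hD (H.rep p x) (f.rep p ι) (H.continuous_rep p x)
    (f.continuous_rep p ι hp) hxF hfF hxu hfu (by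
      intro v hv σ hσ
      obtain ⟨h1, h2, h3⟩ := hbad v (hTS v hv)
      obtain ⟨N, hN⟩ := hroot v hv
      refine ⟨N, ?_⟩
      have h4 := Polynomial.map_dvd ι hN
      rw [Polynomial.map_pow, Polynomial.map_map, rat_comp, ← H.charpoly_frob p x v h2 h3 σ hσ,
        ← f.charpoly_frob p ι hp v h1 h3 σ hσ] at h4
      exact h4)
  obtain ⟨h1, h2, h3⟩ := hbad v hv
  obtain ⟨σ, hσ⟩ := (Pool.Agent.W401.Frob.main K).1 v
  have hk := key σ
  have e1 := H.charpoly_frob p x v h2 h3 σ hσ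
  have e2 := f.charpoly_frob p ι hp v h1 h3 σ hσ
  refine dvd_pow_of_roots ι ?_ fun c hc => ?_
  · rintro h0
    rw [h0, Polynomial.map_zero] at e2
    exact (Matrix.charpoly_monic _).ne_zero e2
  · rw [← e2] at hc
    rw [Polynomial.map_map, rat_comp, ← e1]
    -- `c` is an eigenvalue of `W σ`
    rw [isRoot_charpoly_iff] at hc
    obtain ⟨y, hy, hyc⟩ := hc
    have h4 : ∀ q : (PadicAlgCl p)[X], (aeval (f.rep p ι σ) q).mulVec y = q.eval c • y := by
      intro q
      induction q using Polynomial.induction_on' with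
      | add q q' h h' => rw [map_add, Matrix.add_mulVec, h, h', eval_add, add_smul]
      | monomial k a =>
        have h5 : ∀ k : ℕ, ((f.rep p ι σ) ^ k).mulVec y = c ^ k • y := by
          intro k
          induction k with
          | zero => simp
          | succ k ih =>
            rw [pow_succ, ← Matrix.mulVec_mulVec, hyc, Matrix.mulVec_smul, ih, smul_smul, pow_succ,
              mul_comm]
        rw [aeval_monomial, eval_monomial, ← Matrix.mulVec_mulVec, h5, Matrix.mulVec_smul,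
          Algebra.algebraMap_eq_smul_one, Matrix.smul_mulVec, Matrix.one_mulVec, smul_smul, mul_comm]
    have h6 := h4 ((H.rep p x σ).charpoly ^ n)
    rw [map_pow, hk, Matrix.zero_mulVec, eval_pow] at h6
    have h7 : (H.rep p x σ).charpoly.eval c ^ n = 0 := by
      rcases smul_eq_zero.1 h6.symm with h | h
      · exact h
      · exact absurd h hy
    have hn : n ≠ 0 := by
      rintro rfl
      exact hy (funext fun i => i.elim0)
    exact (pow_eq_zero_iff hn).1 h7

end Pool.Agent.V8H88.FS
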