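import Pool.Agent.Y800.HM
import Pool.Agent.V8H88.GO.Stm

/-!
# The Hermite-Minkowski theorem over a number field

Only finitely many open normal subgroups of the absolute Galois group of a number field `K` have bounded
index and contain the inertia groups outside a finite set of primes. The case `K = ℚ` is
`Pool.Agent.Y800.HM.finite_subgroups`.
-/

set_option autoImplicit false

namespace Pool.Agent.V8H88.FS

open NumberField IsDedekindDomain Pool.Agent.W401.Cheb Pool.Agent.Y800 Polynomial
open scoped Pointwise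

noncomputable section

section transfer

variable (K : Type) [Field K] [NumberField K]

instance algQ : Algebra.IsAlgebraic ℚ (AlgebraicClosure K) := Algebra.IsAlgebraic.trans ℚ K _

instance closQ : IsAlgClosure ℚ (AlgebraicClosure K) := IsAlgClosure.ofAlgebraic ℚ K _

/-- an isomorphism of the algebraic closures -/
def th : AlgebraicClosure K ≃ₐ[ℚ] AlgebraicClosure ℚ := IsAlgClosure.equiv ℚ _ _

/-- the embedding of the absolute Galois group of `K` in that of `ℚ` -/
def jj : GK K →* GQ where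
  toFun σ := AlgEquiv.autCongr (th K) (σ.restrictScalars ℚ)
  map_one' := by
    ext x
    exact (th K).apply_symm_apply x
  map_mul' σ τ := by
    ext x
    change th K (σ (τ ((th K).symm x))) = th K (σ ((th K).symm (th K (τ ((th K).symm x)))))
    rw [AlgEquiv.symm_apply_apply]

theorem jj_apply (σ : GK K) (x : AlgebraicClosure ℚ) : jj K σ x = th K (σ ((th K).symm x)) := rfl

theorem jj_injective : Function.Injective (jj K) := by
  intro σ τ h
  ext x
  have h1 := DFunLike.congr_fun h (th K x)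
  rw [jj_apply, jj_apply, AlgEquiv.symm_apply_apply] at h1
  exact (th K).injective h1

/-- the ring isomorphism of the rings of algebraic integers -/
def ee : 𝓞 (AlgebraicClosure K) ≃+* ZBar := RingOfIntegers.mapRingEquiv (th K).toRingEquiv

theorem coe_ee (x : 𝓞 (AlgebraicClosure K)) : ((ee K x : ZBar) : AlgebraicClosure ℚ) = th K x := rfl

theorem ee_smul (σ : GK K) (x : 𝓞 (AlgebraicClosure K)) : ee K (σ • x) = jj K σ • ee K x := by
  apply RingOfIntegers.coe_injective
  change th K (σ x) = jj K σ (th K x)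
  rw [jj_apply, AlgEquiv.symm_apply_apply]

theorem exists_of_fix (τ : GQ) (h : ∀ a : K, τ (th K (algebraMap K _ a)) = th K (algebraMap K _ a)) :
    ∃ σ : GK K, jj K σ = τ := by
  refine ⟨AlgEquiv.ofRingEquiv (f := (((th K).trans τ).trans (th K).symm).toRingEquiv) ?_, ?_⟩
  · intro a
    change (th K).symm (τ (th K (algebraMap K _ a))) = _
    rw [h, AlgEquiv.symm_apply_apply]
  · ext x
    rw [jj_apply]
    change th K ((th K).symm (τ (th K ((th K).symm x)))) = τ x
    rw [AlgEquiv.apply_symm_apply, AlgEquiv.apply_symm_apply]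

/-- the discriminant argument, for one algebraic integer -/
theorem fix_one (α : 𝓞 K) : ∃ d : ℕ, d ≠ 0 ∧ ∀ p : ℕ, p.Prime → ¬ p ∣ d → ∀ P : Ideal ZBar, P.IsMaximal →
    (p : ZBar) ∈ P → ∀ τ : GQ, InInertia P τ →
      τ (th K (algebraMap K _ (α : K))) = th K (algebraMap K _ (α : K)) := by
  set f : ℤ[X] := minpoly ℤ α with hf
  set δ : 𝓞 K := aeval α (derivative f) with hδ
  have hint : IsIntegral ℤ α := RingOfIntegers.isIntegral α
  have hintK : IsIntegral ℤ (α : K) := RingOfIntegers.isIntegral_coe α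
  have hmin : minpoly ℚ (α : K) = f.map (algebraMap ℤ ℚ) := by
    rw [hf, minpoly.isIntegrallyClosed_eq_field_fractions' ℚ hintK]
    congr 1
    exact minpoly.algebraMap_eq (B := 𝓞 K) (B' := K) RingOfIntegers.coe_injective α
  have hδ0 : δ ≠ 0 := by
    intro h0
    have hsep : (minpoly ℚ (α : K)).Separable :=
      (minpoly.irreducible (Algebra.IsIntegral.isIntegral (α : K))).separable
    have h1 := hsep.aeval_derivative_ne_zero (minpoly.aeval ℚ (α : K))
    apply h1
    rw [hmin, derivative_map, aeval_map_algebraMap]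
    have h2 : algebraMap (𝓞 K) K δ = 0 := by rw [h0, map_zero]
    rw [hδ, ← aeval_algebraMap_apply] at h2
    exact h2
  refine ⟨Ideal.absNorm (Ideal.span {δ}), ?_, ?_⟩
  · rw [Ne, Ideal.absNorm_eq_zero_iff, Ideal.span_singleton_eq_bot]
    exact hδ0
  intro p hp hpd P hP hpP τ hτ
  by_contra hne
  set inc : 𝓞 K →+* ZBar := (ee K : 𝓞 (AlgebraicClosure K) →+* ZBar).comp
    (algebraMap (𝓞 K) (𝓞 (AlgebraicClosure K))) with hinc
  set β : ZBar := inc α with hβ
  have hβc : (β : AlgebraicClosure ℚ) = th K (algebraMap K _ (α : K)) := rfl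
  have hy : τ • β - β ≠ 0 := by
    intro h0
    apply hne
    rw [← hβc]
    exact congrArg (fun z : ZBar => (z : AlgebraicClosure ℚ)) (sub_eq_zero.1 h0)
  have hyP : τ • β - β ∈ P := hτ β
  have hev : ∀ g : ℤ[X], aeval β g = inc (aeval α g) := by
    intro g
    rw [hβ]
    exact (Polynomial.aeval_algHom_apply (inc.toIntAlgHom) α g)
  have h0 : aeval β f = 0 := by rw [hev, hf, minpoly.aeval, map_zero]
  have h1 : aeval (τ • β) f = 0 := by
    have h2 : aeval (τ • β) f = τ • (aeval β f) := by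
      have := Polynomial.aeval_algHom_apply
        ((MulSemiringAction.toRingHom GQ ZBar τ).toIntAlgHom) β f
      exact this
    rw [h2, h0, smul_zero]
  have h3 : aeval β (derivative f) ∈ P := by
    obtain ⟨k, hk⟩ := Polynomial.binomExpansion (f.map (algebraMap ℤ ZBar)) β (τ • β - β)
    rw [add_sub_cancel, eval_map_algebraMap, h1, eval_map_algebraMap, h0, derivative_map,
      eval_map_algebraMap, zero_add] at hk
    have h4 : (τ • β - β) * (aeval β (derivative f) + k * (τ • β - β)) = 0 := by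
      rw [hk]; ring
    rcases mul_eq_zero.1 h4 with h5 | h5
    · exact absurd h5 hy
    · rw [eq_neg_of_add_eq_zero_left h5]
      exact P.neg_mem (P.mul_mem_left _ hyP)
  have h4 : ((Ideal.absNorm (Ideal.span {δ}) : ℕ) : ZBar) ∈ P := by
    have h5 := Ideal.absNorm_mem (Ideal.span {δ})
    obtain ⟨c, hc⟩ := Ideal.mem_span_singleton'.1 h5
    have h6 := congrArg inc hc
    rw [map_mul, map_natCast, hδ, ← hev] at h6
    rw [← h6]
    exact P.mul_mem_left _ h3
  have hcop : Nat.Coprime p (Ideal.absNorm (Ideal.span {δ})) := (Nat.Prime.coprime_iff_not_dvd hp).2 hpd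
  have h5 : (1 : ZBar) ∈ P := by
    have h6 := Nat.isCoprime_iff_coprime.2 hcop
    obtain ⟨a, b, hab⟩ := h6
    have h7 : (a : ZBar) * (p : ZBar) + (b : ZBar) * ((Ideal.absNorm (Ideal.span {δ}) : ℕ) : ZBar) = 1 := by
      exact_mod_cast congrArg (fun z : ℤ => (z : ZBar)) hab
    rw [← h7]
    exact P.add_mem (P.mul_mem_left _ hpP) (P.mul_mem_left _ h4)
  exact hP.ne_top (P.eq_top_iff_one.2 h5)

/-- inertia groups act trivially on `K`, outside a finite set of primes -/
theorem fix_all : ∃ d : ℕ, d ≠ 0 ∧ ∀ p : ℕ, p.Prime → ¬ p ∣ d → ∀ P : Ideal ZBar, P.IsMaximal →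
    (p : ZBar) ∈ P → ∀ τ : GQ, InInertia P τ →
      ∀ a : K, τ (th K (algebraMap K _ a)) = th K (algebraMap K _ a) := by
  classical
  choose d hd hd' using fun i => fix_one K (RingOfIntegers.basis K i)
  refine ⟨∏ i, d i, Finset.prod_ne_zero_iff.2 fun i _ => hd i, ?_⟩
  intro p hp hpd P hP hpP τ hτ a
  set L : K →ₗ[ℚ] AlgebraicClosure ℚ := ((th K).toLinearMap.comp
    (IsScalarTower.toAlgHom ℚ K (AlgebraicClosure K)).toLinearMap) with hL
  have h1 : τ.toLinearMap.comp L = L := by
    refine (integralBasis K).ext fun i => ?_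
    rw [integralBasis_apply]
    exact hd' i p hp (fun h => hpd (h.trans (Finset.dvd_prod_of_mem d (Finset.mem_univ i)))) P hP hpP
      τ hτ
  exact LinearMap.congr_fun h1 a

end transfer

section main

variable (K : Type) [Field K] [NumberField K]

theorem open_map (N : Subgroup (GK K)) (hN : IsOpen (N : Set (GK K))) :
    IsOpen ((N.map (jj K) : Subgroup GQ) : Set GQ) := by
  obtain ⟨E, hE, hEN⟩ := (krullTopology_mem_nhds_one_iff K (AlgebraicClosure K) (N : Set (GK K))).1
    (hN.mem_nhds N.one_mem)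
  have hst : IsScalarTower ℚ K E := IsScalarTower.of_algebraMap_eq' (RingHom.ext_rat _ _)
  have hfin0 : FiniteDimensional ℚ E := Module.Finite.trans K E
  have hfin : FiniteDimensional ℚ (E.restrictScalars ℚ) := hfin0
  have hfin' := LinearEquiv.finiteDimensional (IntermediateField.intermediateFieldMap (th K)
    (E.restrictScalars ℚ)).toLinearEquiv
  refine Subgroup.isOpen_mono (H₁ := ((E.restrictScalars ℚ).map (th K).toAlgHom).fixingSubgroup) ?_
    (IntermediateField.fixingSubgroup_isOpen _)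
  intro τ hτ
  rw [IntermediateField.mem_fixingSubgroup_iff] at hτ
  obtain ⟨σ, rfl⟩ := exists_of_fix K τ (fun a => hτ _ ⟨_, E.algebraMap_mem a, rfl⟩)
  refine ⟨σ, hEN ?_, rfl⟩
  rw [SetLike.mem_coe, IntermediateField.mem_fixingSubgroup_iff]
  intro x hx
  have h1 := hτ (th K x) ⟨x, hx, rfl⟩
  change th K (σ ((th K).symm (th K x))) = th K x at h1
  rw [AlgEquiv.symm_apply_apply] at h1
  exact (th K).injective h1

theorem range_open : IsOpen ((jj K).range : Set GQ) := by
  have := open_map K ⊤ isOpen_univ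
  rwa [← MonoidHom.range_eq_map] at this

theorem index_ne {H : Subgroup GQ} (hH : IsOpen (H : Set GQ)) : H.index ≠ 0 := by
  have : Finite (GQ ⧸ H) := Subgroup.quotient_finite_of_isOpen _ hH
  rw [Subgroup.index_eq_card]
  exact Nat.card_pos.ne'

theorem core_index {G : Type} [Group G] (H : Subgroup G) (hH : H.index ≠ 0) :
    H.normalCore.index ≤ H.index.factorial := by
  have : Finite (G ⧸ H) := Nat.finite_of_card_ne_zero (by rwa [← Subgroup.index_eq_card])
  rw [Subgroup.normalCore_eq_ker, Subgroup.index_ker, Subgroup.index_eq_card H, ← Nat.card_perm]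
  exact Nat.card_le_card_of_injective _ Subtype.val_injective

theorem finite_core (H : Subgroup GQ) (hn : H.Normal) (hH : H.index ≠ 0) :
    {N : Subgroup (GK K) | (N.map (jj K)).normalCore = H}.Finite := by
  have hf : Finite (GQ ⧸ H) := Nat.finite_of_card_ne_zero (by rwa [← Subgroup.index_eq_card])
  refine Set.Finite.of_finite_image (f := fun N : Subgroup (GK K) =>
    (N.map (jj K)).map (QuotientGroup.mk' H)) (Set.toFinite _) ?_
  intro N hN N' hN' h
  have h1 : ∀ N : Subgroup (GK K), (N.map (jj K)).normalCore = H →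
      ((N.map (jj K)).map (QuotientGroup.mk' H)).comap (QuotientGroup.mk' H) = N.map (jj K) := by
    intro N hN
    apply Subgroup.comap_map_eq_self
    rw [QuotientGroup.ker_mk', ← hN]
    exact Subgroup.normalCore_le _
  have h2 : ((N.map (jj K)).map (QuotientGroup.mk' H)) = ((N'.map (jj K)).map (QuotientGroup.mk' H)) := h
  have h3 := h1 N hN
  rw [h2, h1 N' hN'] at h3
  exact (Subgroup.map_injective (jj_injective K) h3).symm

/-- inertia at `P` is in the images of all subgroups which contain the inertia groups outside `S` -/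
theorem mem_map (d : ℕ) (hd : ∀ p : ℕ, p.Prime → ¬ p ∣ d → ∀ P : Ideal ZBar, P.IsMaximal →
    (p : ZBar) ∈ P → ∀ τ : GQ, InInertia P τ →
      ∀ a : K, τ (th K (algebraMap K _ a)) = th K (algebraMap K _ a))
    (S : Set (HeightOneSpectrum (𝓞 K))) (N : Subgroup (GK K))
    (hN : ∀ v ∉ S, ∀ τ, IsInert v τ → τ ∈ N) {p : ℕ} (hp : p.Prime) (hpd : ¬ p ∣ d)
    (hpS : ∀ v ∈ S, ¬ p ∣ Ideal.absNorm v.asIdeal) {P : Ideal ZBar} (hP : P.IsMaximal)
    (hpP : (p : ZBar) ∈ P) {τ : GQ} (hτ : InInertia P τ) : τ ∈ N.map (jj K) := by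
  obtain ⟨σ, rfl⟩ := exists_of_fix K τ (hd p hp hpd P hP hpP τ hτ)
  refine ⟨σ, ?_, rfl⟩
  set Q : Ideal (𝓞 (AlgebraicClosure K)) := P.comap (ee K) with hQ
  have hQm : Q.IsMaximal := Ideal.comap_isMaximal_of_surjective _ (ee K).surjective
  set w : Ideal (𝓞 K) := Q.comap (algebraMap (𝓞 K) (𝓞 (AlgebraicClosure K))) with hw
  have hwp : (p : 𝓞 K) ∈ w := by
    rw [hw, Ideal.mem_comap, map_natCast, hQ, Ideal.mem_comap, map_natCast]
    exact hpP
  have hwprime : w.IsPrime := by
    have := hQm.isPrime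
    rw [hw]
    infer_instance
  have hw0 : w ≠ ⊥ := by
    intro h0
    rw [h0, Ideal.mem_bot, Nat.cast_eq_zero] at hwp
    exact hp.ne_zero hwp
  set v : HeightOneSpectrum (𝓞 K) := ⟨w, hwprime, hw0⟩ with hv
  have hvS : v ∉ S := by
    intro hvS
    have h1 := hpS v hvS
    have hcop : Nat.Coprime p (Ideal.absNorm v.asIdeal) := (Nat.Prime.coprime_iff_not_dvd hp).2 h1
    obtain ⟨a, b, hab⟩ := Nat.isCoprime_iff_coprime.2 hcop
    have h7 : (a : 𝓞 K) * (p : 𝓞 K) + (b : 𝓞 K) * ((Ideal.absNorm v.asIdeal : ℕ) : 𝓞 K) = 1 := by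
      exact_mod_cast congrArg (fun z : ℤ => (z : 𝓞 K)) hab
    apply hwprime.ne_top
    rw [Ideal.eq_top_iff_one, ← h7]
    exact w.add_mem (w.mul_mem_left _ hwp) (w.mul_mem_left _ (Ideal.absNorm_mem _))
  apply hN v hvS
  refine ⟨Q, hQm, rfl, fun x => ?_⟩
  rw [hQ, Ideal.mem_comap, map_sub, ee_smul]
  exact hτ _

/-- **Hermite-Minkowski over `K`.** -/
theorem finite_subgroupsK (S : Set (HeightOneSpectrum (𝓞 K))) (hS : S.Finite) (M : ℕ) :
    {N : Subgroup (GK K) | N.Normal ∧ IsOpen (N : Set (GK K)) ∧ N.index ≤ M ∧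
      ∀ v ∉ S, ∀ τ, IsInert v τ → τ ∈ N}.Finite := by
  classical
  obtain ⟨d, hd0, hd⟩ := fix_all K
  set D0 : ℕ := d * ∏ v ∈ hS.toFinset, Ideal.absNorm v.asIdeal with hD0
  have hD0' : D0 ≠ 0 := by
    rw [hD0]
    refine mul_ne_zero hd0 (Finset.prod_ne_zero_iff.2 fun v _ => ?_)
    rw [Ne, Ideal.absNorm_eq_zero_iff]
    exact v.ne_bot
  have hfin := HM.finite_subgroups D0.primeFactors (fun p hp => Nat.prime_of_mem_primeFactors hp)
    ((M * (jj K).range.index).factorial)
  refine (hfin.biUnion (t := fun H => {N : Subgroup (GK K) | (N.map (jj K)).normalCore = H})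
    ?_).subset ?_
  · rintro H ⟨hn, ho, -, -⟩
    exact finite_core K H hn (index_ne ho)
  rintro N ⟨hn, ho, hM, hI⟩
  have ho' := open_map K N ho
  have hidx := index_ne ho'
  have hfi : (N.map (jj K)).FiniteIndex := ⟨hidx⟩
  refine Set.mem_biUnion (x := (N.map (jj K)).normalCore) ?_ rfl
  have hfi' := Subgroup.finiteIndex_normalCore (N.map (jj K))
  refine ⟨Subgroup.normalCore_normal _, ?_, ?_, ?_⟩
  · exact Subgroup.isOpen_of_isClosed_of_finiteIndex _
      (Subgroup.normalCore_isClosed _ (Subgroup.isClosed_of_isOpen _ ho'))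
  · refine (core_index _ hidx).trans (Nat.factorial_le ?_)
    rw [Subgroup.index_map_of_injective _ (jj_injective K)]
    exact Nat.mul_le_mul_right _ hM
  · intro p hp hpS P hP hpP τ hτ
    have hpD : ¬ p ∣ D0 := fun h => hpS (Nat.mem_primeFactors.2 ⟨hp, h, hD0'⟩)
    have hpd : ¬ p ∣ d := fun h => hpD (h.trans (Dvd.intro _ rfl))
    have hpv : ∀ v ∈ S, ¬ p ∣ Ideal.absNorm v.asIdeal := by
      intro v hv h
      exact hpD ((h.trans (Finset.dvd_prod_of_mem (fun v : HeightOneSpectrum (𝓞 K) =>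
        Ideal.absNorm v.asIdeal) (hS.mem_toFinset.2 hv))).trans (Dvd.intro_left _ rfl))
    intro b
    -- conjugates of inertia elements are inertia elements
    have hbP : (b • P).IsMaximal := by
      have h1 : b • P = P.comap (MulSemiringAction.toRingEquiv GQ ZBar b⁻¹ : ZBar →+* ZBar) := by
        ext x
        rw [Ideal.mem_pointwise_smul_iff_inv_smul_mem, Ideal.mem_comap]
        rfl
      rw [h1]
      exact Ideal.comap_isMaximal_of_surjective _
        (MulSemiringAction.toRingEquiv GQ ZBar b⁻¹).surjective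
    refine mem_map K d hd S N hI hp hpd hpv hbP ?_ ?_
    · rw [Ideal.mem_pointwise_smul_iff_inv_smul_mem]
      have : b⁻¹ • (p : ZBar) = (p : ZBar) := by
        have h := map_natCast (MulSemiringAction.toRingHom GQ ZBar b⁻¹) p
        exact h
      rw [this]
      exact hpP
    · intro x
      rw [Ideal.mem_pointwise_smul_iff_inv_smul_mem, smul_sub, mul_smul, mul_smul, inv_smul_smul]
      exact hτ _

end main

end

end Pool.Agent.V8H88.FS
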