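import Mathlib

/-!
# Representations of a compact group over `ℚ_p` are spanned by the elements of a set which meets all
cosets of an open normal subgroup of bounded index
-/

set_option autoImplicit false

namespace Pool.Agent.V8H88.FS

open Submodule Module

variable {p : ℕ} [Fact p.Prime]

/-- the group of the elements congruent to one modulo `p` in the order generated by the image -/
theorem lattice {Γ X : Type} [Group Γ] [TopologicalSpace Γ] [IsTopologicalGroup Γ] [CompactSpace Γ]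
    [Ring X] [Algebra ℚ_[p] X] [FiniteDimensional ℚ_[p] X] (ρ : Γ →* X)
    (hc : ∀ l : X →ₗ[ℚ_[p]] ℚ_[p], Continuous (fun g => l (ρ g))) :
    ∃ N : Subgroup Γ, N.Normal ∧ IsOpen (N : Set Γ) ∧ N.index ≤ p ^ finrank ℚ_[p] X ∧
      (∀ g, ρ g = 1 → g ∈ N) ∧
      ∀ Y : Set Γ, (∀ g, ∃ σ ∈ Y, g⁻¹ * σ ∈ N) →
        ∀ g, ρ g ∈ Submodule.span ℚ_[p] (ρ '' Y) := by
  classical
  let algZ : Algebra ℤ_[p] X := Algebra.compHom X (algebraMap ℤ_[p] ℚ_[p])
  have : IsScalarTower ℤ_[p] ℚ_[p] X := IsScalarTower.of_algebraMap_eq' rfl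
  -- the order generated by the image
  set A : Submodule ℤ_[p] X := span ℤ_[p] (Set.range ρ) with hA
  have hmem : ∀ g, ρ g ∈ A := fun g => subset_span ⟨g, rfl⟩
  have hone : (1 : X) ∈ A := by rw [← map_one ρ]; exact hmem 1
  have hmul : ∀ x ∈ A, ∀ y ∈ A, x * y ∈ A := by
    intro x hx y hy
    have h1 : A * A = A := by
      rw [hA, span_mul_span]
      congr 1
      ext z
      constructor
      · rintro ⟨_, ⟨g, rfl⟩, _, ⟨h, rfl⟩, rfl⟩
        exact ⟨g * h, map_mul ρ g h⟩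
      · rintro ⟨g, rfl⟩
        exact ⟨ρ g, ⟨g, rfl⟩, 1, ⟨1, map_one ρ⟩, mul_one _⟩
    rw [← h1]
    exact Submodule.mul_mem_mul hx hy
  -- a basis of elements of the image
  obtain ⟨b, hb, hbs, hbi⟩ := exists_linearIndependent ℚ_[p] (Set.range ρ)
  have hbf : Finite b := hbi.finite
  have : Fintype b := Fintype.ofFinite b
  let e : Basis b ℚ_[p] (span ℚ_[p] (Set.range (Subtype.val : b → X))) := Basis.span hbi
  have hsp : ∀ g, ρ g ∈ span ℚ_[p] (Set.range (Subtype.val : b → X)) := by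
    intro g
    rw [Subtype.range_coe, hbs]
    exact subset_span ⟨g, rfl⟩
  have hext : ∀ i : b, ∃ l : X →ₗ[ℚ_[p]] ℚ_[p],
      l ∘ₗ (span ℚ_[p] (Set.range (Subtype.val : b → X))).subtype = e.coord i :=
    fun i => LinearMap.exists_extend (e.coord i)
  choose l hl using hext
  have hsum : ∀ g, ρ g = ∑ i, l i (ρ g) • (i : X) := by
    intro g
    have h1 := congrArg (Submodule.subtype _) (e.sum_repr ⟨ρ g, hsp g⟩)
    rw [map_sum] at h1
    refine h1.symm.trans (Finset.sum_congr rfl fun i _ => ?_)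
    rw [map_smul]
    have h2 := LinearMap.congr_fun (hl i) ⟨ρ g, hsp g⟩
    have h3 : l i (ρ g) = e.repr ⟨ρ g, hsp g⟩ i := h2
    rw [h3]
    congr 1
    exact congrArg Subtype.val (Basis.span_apply hbi i)
  have hbA : ∀ i : b, (i : X) ∈ A := by
    intro i
    obtain ⟨g, hg⟩ := hb i.2
    rw [← hg]
    exact hmem g
  have hsm : ∀ (z : ℤ_[p]) (x : X), z • x = (z : ℚ_[p]) • x := fun z x => rfl
  -- boundedness
  have hbd : ∃ n : ℕ, ∀ g, ∀ i, ‖(p : ℚ_[p]) ^ n * l i (ρ g)‖ ≤ 1 := by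
    have h1 : ∀ i : b, ∃ n : ℕ, ∀ g, ‖(p : ℚ_[p]) ^ n * l i (ρ g)‖ ≤ 1 := by
      intro i
      obtain ⟨C, hC⟩ := isCompact_univ.exists_bound_of_continuousOn (hc (l i)).continuousOn
      have hp1 : (1 : ℝ) < p := by exact_mod_cast (Fact.out : p.Prime).one_lt
      obtain ⟨n, hn⟩ := pow_unbounded_of_one_lt C hp1
      refine ⟨n, fun g => ?_⟩
      have h2 := hC g (Set.mem_univ g)
      rw [norm_mul, norm_pow, Padic.norm_p, inv_pow]
      have hpn : (0 : ℝ) < (p : ℝ) ^ n := by positivity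
      rw [inv_mul_le_iff₀ hpn, mul_one]
      exact h2.trans hn.le
    choose n hn using h1
    refine ⟨∑ i, n i, fun g i => ?_⟩
    have h3 : ∑ i, n i = (∑ i, n i - n i) + n i := by
      have := Finset.single_le_sum (f := n) (fun _ _ => Nat.zero_le _) (Finset.mem_univ i)
      omega
    rw [h3, pow_add, mul_assoc, norm_mul]
    refine mul_le_one₀ ?_ (norm_nonneg _) (hn i g)
    rw [norm_pow]
    exact pow_le_one₀ (norm_nonneg _) (Padic.norm_p_lt_one).le
  obtain ⟨n, hn⟩ := hbd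
  have hp0 : (p : ℚ_[p]) ≠ 0 := by exact_mod_cast (Fact.out : p.Prime).ne_zero
  have hAle : A ≤ span ℤ_[p] (Set.range fun i : b => ((p : ℚ_[p]) ^ n)⁻¹ • (i : X)) := by
    rw [hA, span_le]
    rintro _ ⟨g, rfl⟩
    rw [SetLike.mem_coe, hsum g]
    refine sum_mem fun i _ => ?_
    have h1 : l i (ρ g) • (i : X) =
        (show ℤ_[p] from ⟨(p : ℚ_[p]) ^ n * l i (ρ g), hn g i⟩) •
          (((p : ℚ_[p]) ^ n)⁻¹ • (i : X)) := by
      rw [hsm, smul_smul]
      congr 1
      change l i (ρ g) = (p : ℚ_[p]) ^ n * l i (ρ g) * ((p : ℚ_[p]) ^ n)⁻¹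
      field_simp
    rw [h1]
    exact smul_mem _ _ (subset_span ⟨i, rfl⟩)
  have hFG : A.FG := Submodule.FG.of_le (Submodule.fg_span (Set.finite_range _)) hAle
  have hfin : Module.Finite ℤ_[p] A := Module.Finite.iff_fg.2 hFG
  have htf : Module.IsTorsionFree ℤ_[p] X := by
    have h0 : Module.IsTorsionFree ℤ_[p] ℚ_[p] := inferInstance
    exact Module.IsTorsionFree.trans_faithfulSMul ℤ_[p] ℚ_[p] X
  have hfree : Module.Free ℤ_[p] A := inferInstance
  let c := Module.Free.chooseBasis ℤ_[p] A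
  have hfc : Fintype (Module.Free.ChooseBasisIndex ℤ_[p] A) := inferInstance
  have hcard : Fintype.card (Module.Free.ChooseBasisIndex ℤ_[p] A) ≤ finrank ℚ_[p] X := by
    have h1 : LinearIndependent ℤ_[p] (fun i => (c i : X)) :=
      c.linearIndependent.map' A.subtype (Submodule.ker_subtype A)
    have h2 := (LinearIndependent.iff_fractionRing ℤ_[p] ℚ_[p]).1 h1
    exact h2.fintype_card_le_finrank
  -- the congruence subgroup
  have hN : ∃ N : Subgroup Γ, ∀ g, g ∈ N ↔ ∃ a ∈ A, ρ g - 1 = (p : ℤ_[p]) • a := by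
    refine ⟨{ carrier := {g | ∃ a ∈ A, ρ g - 1 = (p : ℤ_[p]) • a}
              one_mem' := ⟨0, A.zero_mem, by simp⟩
              mul_mem' := ?_
              inv_mem' := ?_ }, fun g => Iff.rfl⟩
    · rintro g h ⟨a, ha, hga⟩ ⟨a', ha', hha⟩
      refine ⟨ρ g * a' + a, A.add_mem (hmul _ (hmem g) _ ha') ha, ?_⟩
      rw [smul_add, ← hga, ← mul_smul_comm, ← hha, map_mul]
      noncomm_ring
    · rintro g ⟨a, ha, hga⟩
      refine ⟨-(ρ g⁻¹ * a), A.neg_mem (hmul _ (hmem _) _ ha), ?_⟩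
      rw [smul_neg, ← mul_smul_comm, ← hga, mul_sub, ← map_mul, inv_mul_cancel, map_one]
      noncomm_ring
  obtain ⟨N, hN⟩ := hN
  have hdiff : ∀ g h, (∃ a ∈ A, ρ g - ρ h = (p : ℤ_[p]) • a) → g⁻¹ * h ∈ N := by
    rintro g h ⟨a, ha, hgh⟩
    rw [hN]
    refine ⟨-(ρ g⁻¹ * a), A.neg_mem (hmul _ (hmem _) _ ha), ?_⟩
    rw [smul_neg, ← mul_smul_comm, ← hgh, mul_sub, ← map_mul, ← map_mul, inv_mul_cancel, map_one]
    noncomm_ring
  refine ⟨N, ⟨?_⟩, ?_, ?_, ?_, ?_⟩
  · intro g hg h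
    rw [hN] at hg ⊢
    obtain ⟨a, ha, hga⟩ := hg
    refine ⟨ρ h * a * ρ h⁻¹, hmul _ (hmul _ (hmem _) _ ha) _ (hmem _), ?_⟩
    have h1 : ρ h * ρ h⁻¹ = 1 := by rw [← map_mul, mul_inv_cancel, map_one]
    rw [← smul_mul_assoc, ← mul_smul_comm, ← hga, mul_sub, sub_mul, map_mul, map_mul, mul_one, h1]
  · apply Subgroup.isOpen_of_mem_nhds N (g := 1)
    have h1 : {g : Γ | ∀ i, ‖l i (ρ g) - l i 1‖ < 1} ∈ nhds (1 : Γ) := by
      have h2 : IsOpen {g : Γ | ∀ i, ‖l i (ρ g) - l i 1‖ < 1} := by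
        have h3 : {g : Γ | ∀ i, ‖l i (ρ g) - l i 1‖ < 1} =
            ⋂ i, {g : Γ | ‖l i (ρ g) - l i 1‖ < 1} := by
          ext g
          simp
        rw [h3]
        exact isOpen_iInter_of_finite fun i =>
          isOpen_lt (((hc (l i)).sub continuous_const).norm) continuous_const
      exact h2.mem_nhds (by intro i; simp)
    refine Filter.mem_of_superset h1 fun g hg => ?_
    rw [SetLike.mem_coe, hN]
    have h2 : ∀ i, ∃ z : ℤ_[p], l i (ρ g) - l i 1 = (p : ℚ_[p]) * (z : ℚ_[p]) := by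
      intro i
      have h3 := hg i
      set w : ℤ_[p] := ⟨l i (ρ g) - l i 1, h3.le⟩ with hw
      have h4 : ‖w‖ < 1 := h3
      rw [PadicInt.norm_lt_one_iff_dvd] at h4
      obtain ⟨z, hz⟩ := h4
      refine ⟨z, ?_⟩
      have h5 := congrArg (fun t : ℤ_[p] => (t : ℚ_[p])) hz
      simpa using h5
    choose z hz using h2
    refine ⟨∑ i, z i • (i : X), A.sum_mem fun i _ => A.smul_mem _ (hbA i), ?_⟩
    have h5 := hsum 1
    rw [map_one] at h5
    rw [hsum g, h5, ← Finset.sum_sub_distrib, Finset.smul_sum]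
    refine Finset.sum_congr rfl fun i _ => ?_
    rw [smul_smul, hsm, ← sub_smul]
    congr 1
    refine (hz i).trans ?_
    change (p : ℚ_[p]) * ((z i : ℤ_[p]) : ℚ_[p]) = (((p : ℤ_[p]) * z i : ℤ_[p]) : ℚ_[p])
    push_cast
    rfl
  · let F : Γ ⧸ N → (Module.Free.ChooseBasisIndex ℤ_[p] A → ZMod p) := fun q i =>
      PadicInt.toZMod (c.repr ⟨ρ q.out, hmem _⟩ i)
    have hF : Function.Injective F := by
      intro q q' h
      rw [← Quotient.out_eq q, ← Quotient.out_eq q']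
      apply QuotientGroup.eq.2
      apply hdiff
      have h1 : ∀ i, ∃ z : ℤ_[p], c.repr (⟨ρ q.out, hmem _⟩ - ⟨ρ q'.out, hmem _⟩) i =
          (p : ℤ_[p]) * z := by
        intro i
        have h2 := congrFun h i
        have h3 : PadicInt.toZMod (c.repr (⟨ρ q.out, hmem _⟩ - ⟨ρ q'.out, hmem _⟩) i) = 0 := by
          rw [map_sub, Finsupp.sub_apply, map_sub, sub_eq_zero]
          exact h2
        rw [← RingHom.mem_ker, PadicInt.ker_toZMod, PadicInt.maximalIdeal_eq_span_p,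
          Ideal.mem_span_singleton] at h3
        exact h3
      choose z hz using h1
      refine ⟨((∑ i, z i • c i : A) : X), SetLike.coe_mem _, ?_⟩
      have h3 : (⟨ρ q.out, hmem _⟩ - ⟨ρ q'.out, hmem _⟩ : A) = (p : ℤ_[p]) • ∑ i, z i • c i := by
        rw [← c.sum_repr (⟨ρ q.out, hmem _⟩ - ⟨ρ q'.out, hmem _⟩), Finset.smul_sum]
        refine Finset.sum_congr rfl fun i _ => ?_
        rw [hz i, mul_smul]
      exact congrArg Subtype.val h3
    have h4 := Nat.card_le_card_of_injective F hF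
    rw [← Subgroup.index_eq_card, Nat.card_fun, Nat.card_zmod, Nat.card_eq_fintype_card] at h4
    exact h4.trans (Nat.pow_le_pow_right (Fact.out : p.Prime).pos hcard)
  · intro g hg
    rw [hN]
    exact ⟨0, A.zero_mem, by rw [hg]; simp⟩
  · intro Y hY
    have h1 : A ≤ span ℤ_[p] (ρ '' Y) ⊔ (Ideal.span {(p : ℤ_[p])}) • A := by
      rw [hA, span_le]
      rintro _ ⟨g, rfl⟩
      obtain ⟨σ, hσ, hg⟩ := hY g
      rw [hN] at hg
      obtain ⟨a, ha, hga⟩ := hg
      have h2 : ρ g = ρ σ - (p : ℤ_[p]) • (ρ g * a) := by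
        rw [← mul_smul_comm, ← hga, mul_sub, ← map_mul, mul_inv_cancel_left, mul_one]
        abel
      rw [SetLike.mem_coe, h2]
      refine sub_mem (mem_sup_left (subset_span ⟨σ, hσ, rfl⟩)) (mem_sup_right ?_)
      exact Submodule.smul_mem_smul (Ideal.mem_span_singleton_self _) (hmul _ (hmem g) _ ha)
    have h2 : A ≤ span ℤ_[p] (ρ '' Y) := by
      refine Submodule.le_of_le_smul_of_le_jacobson_bot hFG ?_ h1
      rw [IsLocalRing.jacobson_eq_maximalIdeal ⊥ bot_ne_top, PadicInt.maximalIdeal_eq_span_p]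
    intro g
    exact Submodule.span_subset_span ℤ_[p] ℚ_[p] _ (h2 (hmem g))

end Pool.Agent.V8H88.FS
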