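import Pool.Agent.V8H88.FS.Tst
import Pool.Agent.V8H88.FS.Lat

/-!
# Polynomial functions of the matrix coefficients which vanish on finitely many Frobenius classes
-/

set_option autoImplicit false

namespace Pool.Agent.V8H88.FS

open NumberField IsDedekindDomain Pool.Agent.W401.Cheb Pool.Agent.V8H88.GO Module

noncomputable section

section kpow

variable {Γ ι : Type} [Group Γ] [Fintype ι] [DecidableEq ι]

/-- the `n`-th Kronecker power of a representation -/
def kpow {R : Type} [CommRing R] (n : ℕ) (Z : Γ →* Matrix ι ι R) :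
    Γ →* Matrix (Fin n → ι) (Fin n → ι) R where
  toFun g := Matrix.of fun a b => ∏ i, Z g (a i) (b i)
  map_one' := by
    ext a b
    rw [Matrix.of_apply, map_one, Matrix.one_apply]
    split_ifs with h
    · rw [h]
      exact Finset.prod_eq_one fun i _ => Matrix.one_apply_eq _
    · obtain ⟨i, hi⟩ := Function.ne_iff.1 h
      exact Finset.prod_eq_zero (Finset.mem_univ i) (Matrix.one_apply_ne hi)
  map_mul' g h := by
    ext a b
    rw [Matrix.of_apply, Matrix.mul_apply, map_mul]
    simp only [Matrix.mul_apply, Matrix.of_apply]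
    rw [Finset.prod_univ_sum, Fintype.piFinset_univ]
    exact Finset.sum_congr rfl fun c _ => Finset.prod_mul_distrib

theorem kpow_apply {R : Type} [CommRing R] (n : ℕ) (Z : Γ →* Matrix ι ι R) (g : Γ)
    (a b : Fin n → ι) : kpow n Z g a b = ∏ i, Z g (a i) (b i) := rfl

/-- the space of functions spanned by the matrix coefficients -/
def ents {k : Type} [Field k] (Z : Γ →* Matrix ι ι k) : Submodule k (Γ → k) :=
  Submodule.span k (Set.range fun q : ι × ι => fun g => Z g q.1 q.2)

theorem ents_pow {k : Type} [Field k] (Z : Γ →* Matrix ι ι k) (n : ℕ) (f : Γ → k)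
    (hf : f ∈ ents Z ^ n) : ∃ L : Matrix (Fin n → ι) (Fin n → ι) k →ₗ[k] k,
      ∀ g, f g = L (kpow n Z g) := by
  induction n generalizing f with
  | zero =>
    rw [pow_zero, Submodule.mem_one] at hf
    obtain ⟨c, rfl⟩ := hf
    refine ⟨c • (Matrix.entryLinearMap k k Fin.elim0 Fin.elim0), fun g => ?_⟩
    rw [LinearMap.smul_apply, Matrix.entryLinearMap_apply, kpow_apply, Finset.univ_eq_empty,
      Finset.prod_empty, smul_eq_mul, mul_one]
    rfl
  | succ n ih =>
    rw [pow_succ'] at hf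
    let W : Submodule k (Γ → k) :=
      { carrier := {f | ∃ L : Matrix (Fin (n + 1) → ι) (Fin (n + 1) → ι) k →ₗ[k] k,
          ∀ g, f g = L (kpow (n + 1) Z g)}
        add_mem' := by
          rintro a b ⟨L, hL⟩ ⟨L', hL'⟩
          exact ⟨L + L', fun g => by rw [Pi.add_apply, hL, hL', LinearMap.add_apply]⟩
        zero_mem' := ⟨0, fun g => by simp⟩
        smul_mem' := by
          rintro c a ⟨L, hL⟩
          exact ⟨c • L, fun g => by rw [Pi.smul_apply, hL, LinearMap.smul_apply]⟩ }
    suffices h : ents Z * ents Z ^ n ≤ W from h hf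
    rw [Submodule.mul_le]
    intro u hu w hw
    obtain ⟨L, hL⟩ := ih w hw
    unfold ents at hu
    induction hu using Submodule.span_induction with
    | mem x hx =>
      obtain ⟨⟨i, j⟩, rfl⟩ := hx
      let sh : Matrix (Fin (n + 1) → ι) (Fin (n + 1) → ι) k →ₗ[k]
          Matrix (Fin n → ι) (Fin n → ι) k :=
        { toFun := fun X => Matrix.of fun a b => X (Fin.cons i a) (Fin.cons j b)
          map_add' := fun X Y => rfl
          map_smul' := fun c X => rfl }
      refine ⟨L ∘ₗ sh, fun g => ?_⟩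
      have h1 : sh (kpow (n + 1) Z g) = Z g i j • kpow n Z g := by
        ext a b
        change kpow (n + 1) Z g (Fin.cons i a) (Fin.cons j b) = Z g i j * kpow n Z g a b
        rw [kpow_apply, kpow_apply, Fin.prod_univ_succ]
        simp
      rw [LinearMap.comp_apply, h1, map_smul, ← hL]
      rfl
    | zero => rw [zero_mul]; exact W.zero_mem
    | add x y _ _ hx hy => rw [add_mul]; exact W.add_mem hx hy
    | smul c x _ hx => rw [smul_mul_assoc]; exact W.smul_mem _ hx

end kpow

section test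

variable {p : ℕ} [Fact p.Prime]

/-- the representation `Z`, defined over the field `F`, over `ℚ̄_p` -/
def ext {Γ ι : Type} [Group Γ] [Fintype ι] [DecidableEq ι]
    {F : IntermediateField ℚ_[p] (PadicAlgCl p)} (Z : Γ →* Matrix ι ι F) :
    Γ →* Matrix ι ι (PadicAlgCl p) :=
  (RingHom.mapMatrix (algebraMap F (PadicAlgCl p))).toMonoidHom.comp Z

theorem ext_apply {Γ ι : Type} [Group Γ] [Fintype ι] [DecidableEq ι]
    {F : IntermediateField ℚ_[p] (PadicAlgCl p)} (Z : Γ →* Matrix ι ι F) (g : Γ) (i j : ι) :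
    ext Z g i j = (Z g i j : PadicAlgCl p) := rfl

/-- **The finite set of test primes.** -/
theorem test (K : Type) [Field K] [NumberField K] (S : Set (HeightOneSpectrum (𝓞 K)))
    (hS : S.Finite) (p : ℕ) [Fact p.Prime] (d n m : ℕ) :
    ∃ T : Set (HeightOneSpectrum (𝓞 K)), T.Finite ∧ (∀ v ∈ T, v ∉ S) ∧
      ∀ (F : IntermediateField ℚ_[p] (PadicAlgCl p)) [FiniteDimensional ℚ_[p] F],
        finrank ℚ_[p] F ≤ m → ∀ (ι : Type) [Fintype ι] [DecidableEq ι], Fintype.card ι ≤ d →
        ∀ Z : GK K →* Matrix ι ι F, Continuous Z → (∀ v ∉ S, ∀ τ, IsInert v τ → Z τ = 1) →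
        ∀ f ∈ ents (ext Z) ^ n, (∀ v ∈ T, ∀ σ, IsFrob v σ → f σ = 0) → ∀ g, f g = 0 := by
  obtain ⟨T, hT, hTS, hT'⟩ := exists_T K S hS (p ^ (d ^ n * d ^ n * m))
  refine ⟨T, hT, hTS, ?_⟩
  intro F _ hF ι _ _ hι Z hZ hunr f hf hfT g
  obtain ⟨L, hL⟩ := ents_pow (ext Z) n f hf
  have hpp : 1 ≤ p := (Fact.out : p.Prime).one_lt.le
  have hk : ∀ g, kpow n (ext Z) g = (kpow n Z g).map (algebraMap F (PadicAlgCl p)) := by
    intro g
    ext a b
    rw [kpow_apply, Matrix.map_apply, kpow_apply, map_prod]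
    rfl
  have hcont : Continuous (kpow n Z) := by
    refine continuous_matrix fun a b => ?_
    change Continuous fun g => ∏ i, Z g (a i) (b i)
    exact continuous_finsetProd _ fun i _ => hZ.matrix_elem _ _
  obtain ⟨N, hNn, hNo, hNi, hNk, hNY⟩ := lattice (p := p) (kpow n Z)
    (fun l => (LinearMap.continuous_of_finiteDimensional l).comp hcont)
  have hidx : N.index ≤ p ^ (d ^ n * d ^ n * m) := by
    refine hNi.trans (Nat.pow_le_pow_right hpp ?_)
    rw [Module.finrank_matrix, Fintype.card_fun, Fintype.card_fin]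
    have h1 : Fintype.card ι ^ n ≤ d ^ n := Nat.pow_le_pow_left hι n
    exact Nat.mul_le_mul (Nat.mul_le_mul h1 h1) hF
  have hker : ∀ v ∉ S, ∀ τ, IsInert v τ → τ ∈ N := by
    intro v hv τ hτ
    apply hNk
    have h1 := hunr v hv τ hτ
    ext a b
    rw [kpow_apply, h1]
    have h2 := kpow_apply n (1 : GK K →* Matrix ι ι F) 1 a b
    rw [map_one] at h2
    rw [h2]
    rfl
  have key := hNY {σ | ∃ v ∈ T, IsFrob v σ} (fun g => by
    obtain ⟨v, hv, σ, hσ, hg⟩ := hT' N hNn hNo hidx hker g
    exact ⟨σ, ⟨v, hv, hσ⟩, hg⟩) g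
  let L' : Matrix (Fin n → ι) (Fin n → ι) F →ₗ[ℚ_[p]] PadicAlgCl p :=
    { toFun := fun X => L (X.map (algebraMap F (PadicAlgCl p)))
      map_add' := fun X Y => by
        rw [Matrix.map_add _ (map_add _), map_add]
      map_smul' := fun c X => by
        have h1 : (c • X).map (algebraMap F (PadicAlgCl p)) =
            (algebraMap ℚ_[p] (PadicAlgCl p) c) • X.map (algebraMap F (PadicAlgCl p)) := by
          ext a b
          rw [Matrix.map_apply, Matrix.smul_apply, Matrix.smul_apply, Matrix.map_apply,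
            smul_eq_mul, Algebra.smul_def, map_mul]
          rfl
        rw [h1, map_smul, smul_eq_mul, RingHom.id_apply, Algebra.smul_def] }
  have hL' : ∀ g, f g = L' (kpow n Z g) := by
    intro g
    rw [hL, hk]
    rfl
  have hspan : Submodule.span ℚ_[p] (kpow n Z '' {σ | ∃ v ∈ T, IsFrob v σ}) ≤ LinearMap.ker L' := by
    rw [Submodule.span_le]
    rintro _ ⟨σ, ⟨v, hv, hσ⟩, rfl⟩
    rw [SetLike.mem_coe, LinearMap.mem_ker, ← hL']
    exact hfT v hv σ hσ
  rw [hL']
  exact LinearMap.mem_ker.1 (hspan key)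

end test

end

end Pool.Agent.V8H88.FS
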