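import Pool.Agent.V8H88.FS.HMK
import Pool.Agent.V8H88.GO.Dns

/-!
# Finite sets of primes whose Frobenius elements meet all cosets of all subgroups of bounded index
-/

set_option autoImplicit false

namespace Pool.Agent.V8H88.FS

open NumberField IsDedekindDomain Pool.Agent.W401.Cheb Pool.Agent.V8H88.GO

variable (K : Type) [Field K] [NumberField K]

theorem meets (S : Set (HeightOneSpectrum (𝓞 K))) (hS : S.Finite) (N : Subgroup (GK K))
    (hN : IsOpen (N : Set (GK K))) (g : GK K) :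
    ∃ v : HeightOneSpectrum (𝓞 K), v ∉ S ∧ ∃ σ, IsFrob v σ ∧ g⁻¹ * σ ∈ N := by
  have hd := frobDense_univ K S hS
  have ho : IsOpen {σ : GK K | g⁻¹ * σ ∈ N} := hN.preimage (by fun_prop)
  obtain ⟨σ, h1, v, -, hv, h2⟩ := hd.inter_open_nonempty _ ho ⟨g, by simp [N.one_mem]⟩
  exact ⟨v, hv, σ, h2, h1⟩

theorem exists_T (S : Set (HeightOneSpectrum (𝓞 K))) (hS : S.Finite) (M : ℕ) :
    ∃ T : Set (HeightOneSpectrum (𝓞 K)), T.Finite ∧ (∀ v ∈ T, v ∉ S) ∧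
      ∀ N : Subgroup (GK K), N.Normal → IsOpen (N : Set (GK K)) → N.index ≤ M →
        (∀ v ∉ S, ∀ τ, IsInert v τ → τ ∈ N) →
        ∀ g, ∃ v ∈ T, ∃ σ, IsFrob v σ ∧ g⁻¹ * σ ∈ N := by
  classical
  have h : ∀ N : Subgroup (GK K), ∀ q : GK K ⧸ N, IsOpen (N : Set (GK K)) →
      ∃ v : HeightOneSpectrum (𝓞 K), v ∉ S ∧ ∃ σ, IsFrob v σ ∧ q.out⁻¹ * σ ∈ N :=
    fun N q hN => meets K S hS N hN _
  have : Nonempty (HeightOneSpectrum (𝓞 K)) := ⟨(meets K S hS ⊤ isOpen_univ 1).choose⟩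
  choose! v hv using h
  refine ⟨⋃ N ∈ {N : Subgroup (GK K) | N.Normal ∧ IsOpen (N : Set (GK K)) ∧ N.index ≤ M ∧
      ∀ v ∉ S, ∀ τ, IsInert v τ → τ ∈ N}, Set.range (v N), ?_, ?_, ?_⟩
  · refine (finite_subgroupsK K S hS M).biUnion fun N hN => ?_
    have : Finite (GK K ⧸ N) := Subgroup.quotient_finite_of_isOpen _ hN.2.1
    exact Set.finite_range _
  · intro w hw
    obtain ⟨N, hN, q, rfl⟩ := Set.mem_iUnion₂.1 hw
    exact (hv N q hN.2.1).1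
  · intro N hn ho hi hI g
    obtain ⟨-, σ, hσ, hσ'⟩ := hv N (QuotientGroup.mk g) ho
    refine ⟨_, Set.mem_biUnion (x := N) ⟨hn, ho, hi, hI⟩ ⟨QuotientGroup.mk g, rfl⟩, σ, hσ, ?_⟩
    have h1 : ((QuotientGroup.mk g : GK K ⧸ N).out)⁻¹ * g ∈ N := by
      rw [← QuotientGroup.eq]
      exact Quotient.out_eq _
    have h2 := N.mul_mem (N.inv_mem h1) hσ'
    convert h2 using 1
    group

end Pool.Agent.V8H88.FS
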